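import Pool.Agent.MP_8d06cc_nt.R3.Fin
import Pool.Agent.MP_8d06cc_nt.AB.Spec

/-! Block R3 in the form of the specification. -/

namespace Pool.Agent.MP_8d06cc_nt.R3

open Polynomial DA AB

theorem r3 (pl : S_PELL) : StmtR3 := fun c e N P hc he h inj => by
  have m : (fz e).Monic := monic_prod_of_monic _ _ fun i _ => monic_X_sub_C _
  refine r3li (f := C c * fz e) pl ?_ ((Splits.C c).mul (Splits.prod fun i _ => Splits.X_sub_C _)) ?_ ?_ h inj
  · rw [natDegree_C_mul hc.ne, fz, natDegree_finsetProd_X_sub_C_eq_card]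
    rfl
  · exact (associated_unit_mul_left _ _ (isUnit_C.2 hc.ne.isUnit)).squarefree_iff.2
      (separable_prod_X_sub_C_iff.2 he).squarefree
  · rwa [leadingCoeff_mul, leadingCoeff_C, m.leadingCoeff, mul_one]

end Pool.Agent.MP_8d06cc_nt.R3
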