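import Pool.Agent.MP_8d06cc_nt.R3.Main

/-! Block R3: the final statements. -/

namespace Pool.Agent.MP_8d06cc_nt.R3

open Polynomial Set DA

noncomputable section

variable {f : ℝ[X]} {N : ℕ}

lemma ovals (hd : f.natDegree = 8) (hs : f.Splits) (sq : Squarefree f) (lc : f.leadingCoeff < 0) :
    ∃ e : Fin 8 → ℝ, StrictMono e ∧ Ov f (e 0) (e 1) ∧ Ov f (e 2) (e 3) ∧ Ov f (e 4) (e 5) ∧
      Ov f (e 6) (e 7) := by
  have nd : f.roots.Nodup := nodup_roots (PerfectField.separable_iff_squarefree.2 sq)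
  have cd : (⟨f.roots, nd⟩ : Finset ℝ).card = 8 := hs.natDegree_eq_card_roots.symm.trans hd
  set e := Finset.orderEmbOfFin _ cd
  have ev : ∀ x, f.eval x = f.leadingCoeff * ∏ i, (x - e i) := fun x => by
    have h : ∏ a ∈ (⟨f.roots, nd⟩ : Finset ℝ), (x - a) = ∏ i, (x - e i) := by
      rw [← Finset.map_orderEmbOfFin_univ _ cd, Finset.prod_map]
      rfl
    rw [← h, hs.eval_eq_prod_roots]
    rfl
  have m := e.strictMono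
  have z : ∀ i, f.eval (e i) = 0 := fun i => by
    rw [ev, Finset.prod_eq_zero (Finset.mem_univ i) (sub_self _), mul_zero]
  have l0 : e 0 < e 1 := m (by decide)
  have l1 : e 1 < e 2 := m (by decide)
  have l2 : e 2 < e 3 := m (by decide)
  have l3 : e 3 < e 4 := m (by decide)
  have l4 : e 4 < e 5 := m (by decide)
  have l5 : e 5 < e 6 := m (by decide)
  have l6 : e 6 < e 7 := m (by decide)
  have k : ∀ x, (0 < (x - e 1) * (x - e 2) ∧ 0 < (x - e 3) * (x - e 4) ∧ 0 < (x - e 5) * (x - e 6))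
      → e 0 < x → x < e 7 → 0 < f.eval x := fun x h a b => by
    rw [ev, Fin.prod_univ_eight]
    have := mul_pos (mul_pos (mul_pos (mul_pos h.1 h.2.1) h.2.2) (sub_pos.2 a))
      (mul_pos_of_neg_of_neg lc (sub_neg.2 b))
    linarith
  refine ⟨e, m, ⟨l0, z _, z _, fun x h => k x ⟨?_, ?_, ?_⟩ ?_ ?_⟩,
    ⟨l2, z _, z _, fun x h => k x ⟨?_, ?_, ?_⟩ ?_ ?_⟩,
    ⟨l4, z _, z _, fun x h => k x ⟨?_, ?_, ?_⟩ ?_ ?_⟩,
    ⟨l6, z _, z _, fun x h => k x ⟨?_, ?_, ?_⟩ ?_ ?_⟩⟩ <;> obtain ⟨h1, h2⟩ := h <;>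
  first
    | linarith
    | exact mul_pos (by linarith) (by linarith)
    | exact mul_pos_of_neg_of_neg (by linarith) (by linarith)

/-- R3 with an explicit real relation -/
theorem r3rel (pl : S_PELL) (hd : f.natDegree = 8) (hs : f.Splits) (sq : Squarefree f)
    (lc : f.leadingCoeff < 0) {P₁ P₂ P₃ : PD ℝ} (h₁ : P₁.OK f N) (h₂ : P₂.OK f N) (h₃ : P₃.OK f N)
    (n₁₂ : P₁.a ≠ P₂.a) (n₁₃ : P₁.a ≠ P₃.a) (n₂₃ : P₂.a ≠ P₃.a) {c₁ c₂ c₃ : ℝ}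
    (R : C c₁ * P₁.Q + C c₂ * P₂.Q + C c₃ * P₃.Q = 0) : c₁ = 0 ∧ c₂ = 0 ∧ c₃ = 0 := by
  obtain ⟨e, m, o₁, o₂, o₃, o₄⟩ := ovals hd hs sq lc
  have l1 : e 1 ≤ e 2 := (m (by decide)).le
  have l3 : e 3 ≤ e 4 := (m (by decide)).le
  have l5 : e 5 ≤ e 6 := (m (by decide)).le
  exact ⟨four pl hd.le h₁ h₂ h₃ n₁₂ n₁₃ o₁ o₂ o₃ o₄ l1 l3 l5 R,
    four (c₂ := c₁) (c₃ := c₃) pl hd.le h₂ h₁ h₃ n₁₂.symm n₂₃ o₁ o₂ o₃ o₄ l1 l3 l5
      (by linear_combination R),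
    four (c₂ := c₁) (c₃ := c₂) pl hd.le h₃ h₁ h₂ n₁₃.symm n₂₃.symm o₁ o₂ o₃ o₄ l1 l3 l5
      (by linear_combination R)⟩

/-- R3 with a complex relation -/
theorem r3relC (pl : S_PELL) (hd : f.natDegree = 8) (hs : f.Splits) (sq : Squarefree f)
    (lc : f.leadingCoeff < 0) {P₁ P₂ P₃ : PD ℝ} (h₁ : P₁.OK f N) (h₂ : P₂.OK f N) (h₃ : P₃.OK f N)
    (n₁₂ : P₁.a ≠ P₂.a) (n₁₃ : P₁.a ≠ P₃.a) (n₂₃ : P₂.a ≠ P₃.a) {c₁ c₂ c₃ : ℂ}
    (R : C c₁ * P₁.Q.map (algebraMap ℝ ℂ) + C c₂ * P₂.Q.map (algebraMap ℝ ℂ) +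
      C c₃ * P₃.Q.map (algebraMap ℝ ℂ) = 0) : c₁ = 0 ∧ c₂ = 0 ∧ c₃ = 0 := by
  have r : ∀ n, c₁ * (P₁.Q.coeff n : ℝ) + c₂ * (P₂.Q.coeff n : ℝ) + c₃ * (P₃.Q.coeff n : ℝ) = 0 :=
    fun n => by simpa using congrArg (coeff · n) R
  have a := r3rel pl hd hs sq lc h₁ h₂ h₃ n₁₂ n₁₃ n₂₃ (c₁ := c₁.re) (c₂ := c₂.re) (c₃ := c₃.re)
    (Polynomial.ext fun n => by simpa using congrArg Complex.re (r n))
  have b := r3rel pl hd hs sq lc h₁ h₂ h₃ n₁₂ n₁₃ n₂₃ (c₁ := c₁.im) (c₂ := c₂.im) (c₃ := c₃.im)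
    (Polynomial.ext fun n => by simpa using congrArg Complex.im (r n))
  exact ⟨Complex.ext a.1 b.1, Complex.ext a.2.1 b.2.1, Complex.ext a.2.2 b.2.2⟩

/-- R3 -/
theorem r3li (pl : S_PELL) (hd : f.natDegree = 8) (hs : f.Splits) (sq : Squarefree f)
    (lc : f.leadingCoeff < 0) {P : Fin 3 → PD ℝ} (h : ∀ i, (P i).OK f N)
    (inj : Function.Injective fun i => (P i).a) : LinearIndependent ℝ fun i => (P i).Q := by
  refine Fintype.linearIndependent_iff.2 fun c hc i => ?_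
  simp only [Fin.sum_univ_three, smul_eq_C_mul] at hc
  obtain ⟨a, b, d⟩ := r3rel pl hd hs sq lc (h 0) (h 1) (h 2) (inj.ne (by decide))
    (inj.ne (by decide)) (inj.ne (by decide)) hc
  fin_cases i <;> assumption

end

end Pool.Agent.MP_8d06cc_nt.R3
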