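import Pool.Agent.MP_8d06cc_nt.R3.Oval

/-! Block R3: the root count. -/

namespace Pool.Agent.MP_8d06cc_nt.R3

open Polynomial Set DA

noncomputable section

variable {f : ℝ[X]} {N : ℕ}

/-- an interval between two roots on which `f` is positive -/
structure Ov (f : ℝ[X]) (e e' : ℝ) : Prop where
  lt : e < e'
  h0 : f.eval e = 0
  h1 : f.eval e' = 0
  hp : ∀ x ∈ Ioo e e', 0 < f.eval x

/-- the auxiliary polynomial -/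
def MM (P₁ P₂ P₃ : PD ℝ) (c₁ c₂ c₃ : ℝ) : ℝ[X] :=
  C c₁ * P₁.Q * ((X - C P₂.a) * (X - C P₃.a)) + C c₂ * P₂.Q * ((X - C P₁.a) * (X - C P₃.a)) +
    C c₃ * P₃.Q * ((X - C P₁.a) * (X - C P₂.a))

/-- the product of the three linear factors -/
def SS (P₁ P₂ P₃ : PD ℝ) : ℝ[X] := (X - C P₁.a) * (X - C P₂.a) * (X - C P₃.a)

variable {P₁ P₂ P₃ : PD ℝ} {c₁ c₂ c₃ e e' : ℝ}

lemma oval3 (h₁ : P₁.OK f N) (h₂ : P₂.OK f N) (h₃ : P₃.OK f N) (o : Ov f e e') (l₁ l₂ l₃ : ℝ)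
    (k₁ : P₁.a ∈ Ioo e e' → l₁ = 0) (k₂ : P₂.a ∈ Ioo e e' → l₂ = 0) (k₃ : P₃.a ∈ Ioo e e' → l₃ = 0)
    {w : ℝ → ℝ} (hw : ∀ x, 0 ≤ w x) (hw' : ∃ x ∈ Ioo e e', w x ≠ 0) (p q : ℝ[X])
    (hp : ∀ x ∈ Ioo e e', p.eval x ≠ 0) (hq : ∀ x ∈ Ioo e e', q.eval x ≠ 0)
    (H : ∀ x ∈ Ioo e e', l₁ * (P₁.Q.eval x / (x - P₁.a)) + l₂ * (P₂.Q.eval x / (x - P₂.a)) +
      l₃ * (P₃.Q.eval x / (x - P₃.a)) = w x * (p.eval x / q.eval x)) : False := by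
  refine oval (f := f) (N := N) (P := ![P₁, P₂, P₃]) (fun k => by fin_cases k <;> assumption) o.lt
    o.h0 o.h1 o.hp ![l₁, l₂, l₃] (fun k => by fin_cases k <;> assumption) (fun x _ => hw x) hw'
    (s := fun x => p.eval x / q.eval x) (p.continuousOn.div q.continuousOn hq)
    (fun x hx => div_ne_zero (hp x hx) (hq x hx)) fun x hx => ?_
  rw [Fin.sum_univ_three]
  exact H x hx

/-- an oval that contains the first point -/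
lemma one (h₁ : P₁.OK f N) (h₂ : P₂.OK f N) (h₃ : P₃.OK f N) (o : Ov f e e')
    (R : C c₁ * P₁.Q + C c₂ * P₂.Q + C c₃ * P₃.Q = 0) :
    ∃ x ∈ Ioo e e', (MM P₁ P₂ P₃ c₁ c₂ c₃ * ((X - C P₂.a) * (X - C P₃.a))).eval x = 0 ∨
      P₁.a ∉ Ioo e e' := by
  by_contra n
  push Not at n
  have n1 : ∀ x ∈ Ioo e e', (MM P₁ P₂ P₃ c₁ c₂ c₃).eval x ≠ 0 ∧ x - P₂.a ≠ 0 ∧ x - P₃.a ≠ 0 :=
    fun x hx => by simpa only [eval_mul, eval_sub, eval_X, eval_C, mul_ne_zero_iff] using (n x hx).1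
  refine oval3 h₁ h₂ h₃ o 0 (c₂ * (P₂.a - P₁.a)) (c₃ * (P₃.a - P₁.a)) (fun _ => rfl)
    (fun q => absurd (sub_self _) (n1 _ q).2.1) (fun q => absurd (sub_self _) (n1 _ q).2.2)
    (w := fun _ => 1) (fun _ => zero_le_one) ((nonempty_Ioo.2 o.lt).imp fun x hx => ⟨hx, one_ne_zero⟩)
    (MM P₁ P₂ P₃ c₁ c₂ c₃) ((X - C P₂.a) * (X - C P₃.a)) (fun x hx => (n1 x hx).1)
    (fun x hx => by simpa only [eval_mul, eval_sub, eval_X, eval_C, mul_ne_zero_iff]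
      using (n1 x hx).2) fun x hx => ?_
  obtain ⟨-, a2, a3⟩ := n1 x hx
  have r := congrArg (eval x) R
  simp only [MM, eval_add, eval_mul, eval_sub, eval_X, eval_C, eval_zero] at r ⊢
  field_simp
  linear_combination -(x - P₂.a) * (x - P₃.a) * r

/-- every oval contains two roots of `MM * SS` -/
lemma two (h₁ : P₁.OK f N) (h₂ : P₂.OK f N) (h₃ : P₃.OK f N) (o : Ov f e e')
    (R : C c₁ * P₁.Q + C c₂ * P₂.Q + C c₃ * P₃.Q = 0) : ∃ r ∈ Ioo e e', ∃ s ∈ Ioo e e',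
      (X - C r) * (X - C s) ∣ MM P₁ P₂ P₃ c₁ c₂ c₃ * SS P₁ P₂ P₃ := by
  by_cases q₁ : P₁.a ∈ Ioo e e'
  · obtain ⟨x, hx, k⟩ := one h₁ h₂ h₃ o R
    obtain ⟨t, ht⟩ := dvd_iff_isRoot.2 (k.resolve_right fun n => n q₁)
    exact ⟨_, q₁, x, hx, t, by rw [SS]; linear_combination (X - C P₁.a) * ht⟩
  by_cases q₂ : P₂.a ∈ Ioo e e'
  · obtain ⟨x, hx, k⟩ := one (c₁ := c₂) (c₂ := c₁) (c₃ := c₃) h₂ h₁ h₃ o (by linear_combination R)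
    obtain ⟨t, ht⟩ := dvd_iff_isRoot.2 (k.resolve_right fun n => n q₂)
    exact ⟨_, q₂, x, hx, t, by rw [SS]; rw [MM] at ht ⊢; linear_combination (X - C P₂.a) * ht⟩
  by_cases q₃ : P₃.a ∈ Ioo e e'
  · obtain ⟨x, hx, k⟩ := one (c₁ := c₃) (c₂ := c₁) (c₃ := c₂) h₃ h₁ h₂ o (by linear_combination R)
    obtain ⟨t, ht⟩ := dvd_iff_isRoot.2 (k.resolve_right fun n => n q₃)
    exact ⟨_, q₃, x, hx, t, by rw [SS]; rw [MM] at ht ⊢; linear_combination (X - C P₃.a) * ht⟩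
  have a : ∀ x ∈ Ioo e e', x - P₁.a ≠ 0 ∧ x - P₂.a ≠ 0 ∧ x - P₃.a ≠ 0 := fun x hx =>
    ⟨sub_ne_zero.2 fun n => q₁ (n ▸ hx), sub_ne_zero.2 fun n => q₂ (n ▸ hx),
      sub_ne_zero.2 fun n => q₃ (n ▸ hx)⟩
  have s0 : ∀ x ∈ Ioo e e', (SS P₁ P₂ P₃).eval x ≠ 0 := fun x hx => by
    simpa only [SS, eval_mul, eval_sub, eval_X, eval_C, mul_ne_zero_iff, and_assoc] using a x hx
  obtain ⟨r, hr, k⟩ : ∃ r ∈ Ioo e e', (MM P₁ P₂ P₃ c₁ c₂ c₃).eval r = 0 := by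
    by_contra n
    push Not at n
    refine oval3 h₁ h₂ h₃ o c₁ c₂ c₃ (absurd · q₁) (absurd · q₂) (absurd · q₃) (w := fun _ => 1)
      (fun _ => zero_le_one) ((nonempty_Ioo.2 o.lt).imp fun x hx => ⟨hx, one_ne_zero⟩) _ _ n s0
      fun x hx => ?_
    obtain ⟨a1, a2, a3⟩ := a x hx
    simp only [MM, SS, eval_add, eval_mul, eval_sub, eval_X, eval_C]
    field_simp
  obtain ⟨t, ht⟩ := dvd_iff_isRoot.2 k
  obtain ⟨s, hs, k'⟩ : ∃ s ∈ Ioo e e', t.eval s = 0 := by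
    by_contra n
    push Not at n
    refine oval3 h₁ h₂ h₃ o (c₁ * (P₁.a - r)) (c₂ * (P₂.a - r)) (c₃ * (P₃.a - r)) (absurd · q₁)
      (absurd · q₂) (absurd · q₃) (w := fun x => (x - r) ^ 2) (fun _ => sq_nonneg _)
      ⟨(e + r) / 2, ⟨by linarith [hr.1], by linarith [hr.1, hr.2]⟩,
        pow_ne_zero _ (by linarith [hr.1] : (e + r) / 2 - r < 0).ne⟩ _ _ n s0 fun x hx => ?_
    obtain ⟨a1, a2, a3⟩ := a x hx
    have r1 := congrArg (eval x) R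
    have r2 := congrArg (eval x) ht
    simp only [MM, SS, eval_add, eval_mul, eval_sub, eval_X, eval_C, eval_zero] at r1 r2 ⊢
    field_simp
    linear_combination (x - r) * r2 - (x - P₁.a) * (x - P₂.a) * (x - P₃.a) * r1
  obtain ⟨t', ht'⟩ := dvd_iff_isRoot.2 k'
  exact ⟨r, hr, s, hs, t' * SS P₁ P₂ P₃, by rw [ht, ht']; ring⟩

lemma cop {r s r' s' a b a' b' : ℝ} (hr : r ∈ Ioo a b) (hs : s ∈ Ioo a b) (hr' : r' ∈ Ioo a' b')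
    (hs' : s' ∈ Ioo a' b') (h : b ≤ a') :
    IsCoprime ((X - C r) * (X - C s)) ((X - C r') * (X - C s') : ℝ[X]) := by
  have k : ∀ u ∈ Ioo a b, ∀ v ∈ Ioo a' b', IsCoprime (X - C u) (X - C v : ℝ[X]) := fun u hu v hv =>
    isCoprime_X_sub_C_of_isUnit_sub (sub_ne_zero.2 (hu.2.trans (h.trans_lt hv.1)).ne).isUnit
  exact ((k r hr r' hr').mul_right (k r hr s' hs')).mul_left
    ((k s hs r' hr').mul_right (k s hs s' hs'))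

/-- four ovals force the relation to be trivial -/
theorem four (pl : S_PELL) (hf : f.natDegree ≤ 8) (h₁ : P₁.OK f N) (h₂ : P₂.OK f N)
    (h₃ : P₃.OK f N) (n₁₂ : P₁.a ≠ P₂.a) (n₁₃ : P₁.a ≠ P₃.a) {e₀ e₁ e₂ e₃ e₄ e₅ e₆ e₇ : ℝ}
    (o₁ : Ov f e₀ e₁) (o₂ : Ov f e₂ e₃) (o₃ : Ov f e₄ e₅) (o₄ : Ov f e₆ e₇) (l₁ : e₁ ≤ e₂)
    (l₂ : e₃ ≤ e₄) (l₃ : e₅ ≤ e₆) (R : C c₁ * P₁.Q + C c₂ * P₂.Q + C c₃ * P₃.Q = 0) : c₁ = 0 := by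
  by_contra c0
  obtain ⟨-, b1, -, v1, d1⟩ := pl.basic ℝ f N P₁ hf h₁
  obtain ⟨-, -, -, -, d2⟩ := pl.basic ℝ f N P₂ hf h₂
  obtain ⟨-, -, -, -, d3⟩ := pl.basic ℝ f N P₃ hf h₃
  have M0 : MM P₁ P₂ P₃ c₁ c₂ c₃ ≠ 0 := fun q => by
    have := congrArg (eval P₁.a) q
    simp only [MM, eval_add, eval_mul, eval_sub, eval_X, eval_C, sub_self, zero_mul, mul_zero,
      add_zero, eval_zero, v1] at this
    exact mul_ne_zero (mul_ne_zero c0 b1) (mul_ne_zero (sub_ne_zero.2 n₁₂) (sub_ne_zero.2 n₁₃)) this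
  have S0 : SS P₁ P₂ P₃ ≠ 0 :=
    mul_ne_zero (mul_ne_zero (X_sub_C_ne_zero _) (X_sub_C_ne_zero _)) (X_sub_C_ne_zero _)
  have dM : (MM P₁ P₂ P₃ c₁ c₂ c₃).natDegree ≤ 4 := by
    have : MM P₁ P₂ P₃ c₁ c₂ c₃ = C c₂ * P₂.Q * ((C P₂.a - C P₁.a) * (X - C P₃.a)) +
        C c₃ * P₃.Q * ((C P₃.a - C P₁.a) * (X - C P₂.a)) := by
      rw [MM]
      linear_combination (X - C P₂.a) * (X - C P₃.a) * R
    rw [this]
    have k : ∀ (c u v w : ℝ) (Q : ℝ[X]), Q.natDegree ≤ 3 →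
        (C c * Q * ((C u - C v) * (X - C w))).natDegree ≤ 4 := fun c u v w Q d => by
      rw [← C_sub]
      refine natDegree_mul_le.trans (add_le_add ((natDegree_C_mul_le _ _).trans d)
        ((natDegree_C_mul_le _ _).trans (natDegree_X_sub_C_le w)))
    exact natDegree_add_le_of_degree_le (k _ _ _ _ _ d2) (k _ _ _ _ _ d3)
  have dS : (SS P₁ P₂ P₃).natDegree ≤ 3 :=
    natDegree_mul_le.trans (add_le_add (natDegree_mul_le.trans (add_le_add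
      (natDegree_X_sub_C_le _) (natDegree_X_sub_C_le _))) (natDegree_X_sub_C_le _))
  obtain ⟨r₁, a₁, s₁, b₁, t₁⟩ := two h₁ h₂ h₃ o₁ R
  obtain ⟨r₂, a₂, s₂, b₂, t₂⟩ := two h₁ h₂ h₃ o₂ R
  obtain ⟨r₃, a₃, s₃, b₃, t₃⟩ := two h₁ h₂ h₃ o₃ R
  obtain ⟨r₄, a₄, s₄, b₄, t₄⟩ := two h₁ h₂ h₃ o₄ R
  have l₄ : e₁ ≤ e₄ := l₁.trans (o₂.lt.le.trans l₂)
  have l₅ : e₃ ≤ e₆ := l₂.trans (o₃.lt.le.trans l₃)
  have D := (((cop a₁ b₁ a₄ b₄ (l₁.trans (o₂.lt.le.trans l₅))).mul_left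
    (cop a₂ b₂ a₄ b₄ l₅)).mul_left (cop a₃ b₃ a₄ b₄ l₃)).mul_dvd
    (((cop a₁ b₁ a₃ b₃ l₄).mul_left (cop a₂ b₂ a₃ b₃ l₂)).mul_dvd
      ((cop a₁ b₁ a₂ b₂ l₁).mul_dvd t₁ t₂) t₃) t₄
  have := (natDegree_le_of_dvd D (mul_ne_zero M0 S0)).trans
    (natDegree_mul_le.trans (add_le_add dM dS))
  have m : ∀ u v : ℝ, ((X - C u) * (X - C v)).Monic := fun u v =>
    (monic_X_sub_C u).mul (monic_X_sub_C v)
  have d : ∀ u v : ℝ, ((X - C u) * (X - C v)).natDegree = 2 := fun u v => by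
    rw [(monic_X_sub_C u).natDegree_mul (monic_X_sub_C v), natDegree_X_sub_C, natDegree_X_sub_C]
  rw [(((m _ _).mul (m _ _)).mul (m _ _)).natDegree_mul (m _ _),
    ((m _ _).mul (m _ _)).natDegree_mul (m _ _), (m _ _).natDegree_mul (m _ _), d, d, d, d] at this
  omega

end

end Pool.Agent.MP_8d06cc_nt.R3
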