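import Pool.Agent.MP_8d06cc_nt.DA.Defs

/-! Block R3: three real Pell data on a curve with four ovals have independent cubics. -/

namespace Pool.Agent.MP_8d06cc_nt.R3

open Polynomial Set DA

noncomputable section

/-- the logarithm of the modulus of `(A + B y) / (A - B y)` on the upper branch -/
def lg (f : ℝ[X]) (P : PD ℝ) (x : ℝ) : ℝ :=
  Real.log (P.A.eval x + P.B.eval x * √(f.eval x)) - Real.log (P.A.eval x - P.B.eval x * √(f.eval x))

variable {f : ℝ[X]} {N : ℕ} {P : PD ℝ} {x : ℝ}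

lemma nrm (h : P.OK f N) (hx : 0 ≤ f.eval x) : (P.A.eval x + P.B.eval x * √(f.eval x)) *
    (P.A.eval x - P.B.eval x * √(f.eval x)) = P.c * (x - P.a) ^ (2 * N) := by
  have e := congrArg (eval x) h.eqn
  simp only [eval_sub, eval_mul, eval_pow, eval_C, eval_X] at e
  linear_combination e - P.B.eval x ^ 2 * Real.sq_sqrt hx

lemma ne (h : P.OK f N) (hx : 0 ≤ f.eval x) (ha : x ≠ P.a) :
    P.A.eval x + P.B.eval x * √(f.eval x) ≠ 0 ∧ P.A.eval x - P.B.eval x * √(f.eval x) ≠ 0 :=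
  mul_ne_zero_iff.1 (nrm h hx ▸ mul_ne_zero h.hc (pow_ne_zero _ (sub_ne_zero.2 ha)))

lemma lg_cont (h : P.OK f N) (hx : 0 ≤ f.eval x) (ha : x ≠ P.a) : ContinuousAt (lg f P) x :=
  ContinuousAt.sub (ContinuousAt.log (by fun_prop) (ne h hx ha).1)
    (ContinuousAt.log (by fun_prop) (ne h hx ha).2)

lemma lg_der (h : P.OK f N) (hx : 0 < f.eval x) (ha : x ≠ P.a) :
    HasDerivAt (lg f P) (2 * N / √(f.eval x) * (P.Q.eval x / (x - P.a))) x := by
  obtain ⟨n1, n2⟩ := ne h hx.le ha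
  have y0 : √(f.eval x) ≠ 0 := (Real.sqrt_pos.2 hx).ne'
  have dZ := (P.B.hasDerivAt x).mul ((f.hasDerivAt x).sqrt hx.ne')
  have d := (((P.A.hasDerivAt x).add dZ).log n1).sub (((P.A.hasDerivAt x).sub dZ).log n2)
  refine HasDerivAt.congr_deriv d ?_
  have e := congrArg (eval x) h.hQ
  obtain ⟨n, rfl⟩ : ∃ n, N = n + 1 := ⟨N - 1, by have := h.pos; omega⟩
  have e2 := nrm h hx.le
  rw [show 2 * (n + 1) - 1 = 2 * n + 1 by omega] at e
  simp only [WW, eval_add, eval_sub, eval_mul, eval_pow, eval_C, eval_X, eval_ofNat] at e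
  have s := Real.sq_sqrt hx.le
  have a0 : x - P.a ≠ 0 := sub_ne_zero.2 ha
  simp only [Pi.add_apply, Pi.sub_apply, Pi.mul_apply]
  generalize √(f.eval x) = y at *
  rw [div_sub_div _ _ n1 n2, e2, div_mul_div_comm,
    div_eq_div_iff (mul_ne_zero h.hc (pow_ne_zero _ a0)) (mul_ne_zero y0 a0)]
  rw [← s] at e
  field_simp
  linear_combination 2 * (x - P.a) * e

/-- On an oval free of the points used, the combination cannot have a sign. -/
lemma oval {ι : Type} [Fintype ι] {P : ι → PD ℝ} (h : ∀ k, (P k).OK f N) {e e' : ℝ} (ee : e < e')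
    (h0 : f.eval e = 0) (h1 : f.eval e' = 0) (hp : ∀ x ∈ Ioo e e', 0 < f.eval x) (c : ι → ℝ)
    (hc : ∀ k, (P k).a ∈ Ioo e e' → c k = 0) {w s : ℝ → ℝ} (hw : ∀ x ∈ Ioo e e', 0 ≤ w x)
    (hw' : ∃ x ∈ Ioo e e', w x ≠ 0) (hs : ContinuousOn s (Ioo e e'))
    (hs' : ∀ x ∈ Ioo e e', s x ≠ 0) [Nonempty ι]
    (H : ∀ x ∈ Ioo e e', ∑ k, c k * ((P k).Q.eval x / (x - (P k).a)) = w x * s x) : False := by
  wlog sp : ∀ x ∈ Ioo e e', 0 < s x generalizing c s
  · refine this (fun k => -c k) (fun k q => by rw [hc k q, neg_zero]) hs.neg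
      (fun x q => neg_ne_zero.2 (hs' x q)) (fun x q => ?_) fun x q => ?_
    · simp only [neg_mul, Finset.sum_neg_distrib, H x q, Pi.neg_apply, mul_neg]
    · by_contra n
      obtain ⟨z, hz, n'⟩ : ∃ z ∈ Ioo e e', s z ≤ 0 := by simpa only [not_forall, not_lt,
        exists_prop] using sp
      obtain ⟨t, ht, e0⟩ := isPreconnected_Ioo.intermediate_value hz q hs
        (show (0 : ℝ) ∈ Icc (s z) (s x) from ⟨n', by simpa using n⟩)
      exact hs' t ht e0
  have N0 : (0 : ℝ) < N := by exact_mod_cast (h (Classical.arbitrary ι)).pos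
  have hp' : ∀ x ∈ Icc e e', 0 ≤ f.eval x := fun x q => by
    rcases q.1.eq_or_lt with rfl | q1
    · exact h0.ge
    rcases q.2.eq_or_lt with rfl | q2
    · exact h1.ge
    exact (hp x ⟨q1, q2⟩).le
  have na : ∀ k, c k ≠ 0 → ∀ x ∈ Icc e e', x ≠ (P k).a := fun k q x hx e0 => by
    rcases hx.1.eq_or_lt with q1 | q1
    · exact (h k).hf (by rw [← e0, ← q1, h0])
    rcases hx.2.eq_or_lt with q2 | q2
    · exact (h k).hf (by rw [← e0, q2, h1])
    exact q (hc k (e0 ▸ ⟨q1, q2⟩))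
  set F : ℝ → ℝ := fun x => ∑ k, c k * lg f (P k) x with hF
  have Fc : ContinuousOn F (Icc e e') := continuousOn_finsetSum _ fun k _ x hx => by
    by_cases q : c k = 0
    · simpa only [q, zero_mul] using continuousWithinAt_const
    · exact (continuousAt_const.mul (lg_cont (h k) (hp' x hx) (na k q x hx))).continuousWithinAt
  have Fd : ∀ x ∈ Ioo e e', HasDerivAt F (2 * N / √(f.eval x) * (w x * s x)) x := fun x hx => by
    rw [← H x hx, Finset.mul_sum]
    refine HasDerivAt.fun_sum fun k _ => ?_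
    by_cases q : c k = 0
    · simpa only [q, zero_mul, mul_zero] using hasDerivAt_const x (0 : ℝ)
    · exact ((lg_der (h k) (hp x hx) (na k q x (Ioo_subset_Icc_self hx))).const_mul
        (c k)).congr_deriv (by ring)
  have Fm : MonotoneOn F (Icc e e') := by
    refine monotoneOn_of_deriv_nonneg (convex_Icc e e') Fc (fun x hx => ?_) fun x hx => ?_ <;>
      rw [interior_Icc] at hx
    · exact (Fd x hx).differentiableAt.differentiableWithinAt
    · rw [(Fd x hx).deriv]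
      have := hw x hx
      have := sp x hx
      positivity
  have F0 : ∀ x, f.eval x = 0 → F x = 0 := fun x q => by simp [hF, lg, q]
  obtain ⟨x, hx, wx⟩ := hw'
  have Fz : F =ᶠ[nhds x] fun _ => 0 := by
    filter_upwards [Ioo_mem_nhds hx.1 hx.2] with z hz
    exact le_antisymm (F0 e' h1 ▸ Fm (Ioo_subset_Icc_self hz) ⟨ee.le, le_rfl⟩ hz.2.le)
      (F0 e h0 ▸ Fm ⟨le_rfl, ee.le⟩ (Ioo_subset_Icc_self hz) hz.1.le)
  have := (Fd x hx).unique ((hasDerivAt_const x (0 : ℝ)).congr_of_eventuallyEq Fz)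
  exact mul_ne_zero (div_ne_zero (by positivity) (Real.sqrt_pos.2 (hp x hx)).ne')
    (mul_ne_zero wx (hs' x hx)) this

end

end Pool.Agent.MP_8d06cc_nt.R3
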